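import Pool.Agent.Lib.MP_7903c7_al.LS.CutCore

/-!
The cut lemma for circle valued equivariant functions.
-/

namespace Pool.Agent.Lib.MP_7903c7_al.LS.CutCore

open Finsupp Real

variable {P : Type*} {Λ : Type*} [CommRing Λ]

theorem bdA_eq (l : List P) : (bdA l : Ch P Λ) =
    ∑ j ∈ Finset.range l.length, single (l.eraseIdx j) ((-1) ^ j) := by
  induction l with
  | nil => simp [bdA]
  | cons a l ih =>
    rw [bdA, ih, List.length_cons, Finset.sum_range_succ']
    simp [pow_succ, sub_eq_neg_add]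

/-- The boundary is the alternating sum of the deletions. -/
theorem bd_single {l : List P} (h : 2 ≤ l.length) (c : Λ) : bd (single l c) =
    c • ∑ j ∈ Finset.range l.length, single (l.eraseIdx j) ((-1 : Λ) ^ j) := by
  rcases l with _ | ⟨a, _ | ⟨b, l⟩⟩
  · simp at h
  · simp at h
  · rw [bd_two, ← bdA_eq]; rfl

theorem bd_short {l : List P} (h : l.length ≤ 1) (c : Λ) : bd (single l c) = 0 := by
  rcases l with _ | ⟨a, _ | ⟨b, l⟩⟩
  · simp
  · simp
  · simp at h

theorem sg_of_length {n : ℕ} {x : Ch P Λ} (hx : x ∈ supported Λ Λ {l | l.length = n}) :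
    sg x = ((-1 : Λ) ^ n) • x :=
  app_on (f := sg) (g := ((-1 : Λ) ^ n) • LinearMap.id) (fun l hl => by
    have : l.length = n := hl
    simp [this]) hx

/-- Phase of a complex number. -/
noncomputable def ph (z : ℂ) : ℝ := z.arg / (2 * π)

theorem ph_spec (z : ℂ) : z = ‖z‖ * Complex.exp (2 * π * Complex.I * (ph z : ℝ)) := by
  have : (π : ℂ) ≠ 0 := by exact_mod_cast pi_ne_zero
  conv_lhs => rw [← Complex.norm_mul_exp_arg_mul_I z]
  congr 2
  unfold ph; push_cast; field_simp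

theorem near_of_cos {s : ℝ} (h : 0 < cos (2 * π * s)) : |s - round s| < 1 / 4 := by
  by_contra hc
  have h1 := abs_sub_round s
  have e : cos (2 * π * s) = cos (2 * π * |s - round s|) := by
    have : cos (2 * π * |s - round s|) = cos (2 * π * (s - round s)) := by
      rcases abs_choice (s - round s) with h | h
      · rw [h]
      · rw [h, mul_neg, cos_neg]
    rw [this, show 2 * π * (s - round s) = 2 * π * s - (round s : ℤ) * (2 * π) by ring,
      cos_sub_int_mul_two_pi]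
  have := cos_nonpos_of_pi_div_two_le_of_le (x := 2 * π * |s - round s|)
    (by nlinarith [pi_pos]) (by nlinarith [pi_pos])
  linarith

theorem near_of_re {u v : ℂ} (h : 0 < (u * (starRingEnd ℂ) v).re) :
    |ph u - ph v - round (ph u - ph v)| < 1 / 4 := by
  apply near_of_cos
  have e : u * (starRingEnd ℂ) v =
      ((‖u‖ * ‖v‖ : ℝ) : ℂ) * Complex.exp ((2 * π * (ph u - ph v) : ℝ) * Complex.I) := by
    conv_lhs => rw [ph_spec u, ph_spec v]
    rw [map_mul, ← Complex.exp_conj, Complex.conj_ofReal]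
    simp only [map_mul, Complex.conj_ofReal, Complex.conj_I, map_ofNat]
    rw [mul_mul_mul_comm, ← Complex.exp_add]
    push_cast; congr 2; ring
  rw [e, Complex.re_ofReal_mul, Complex.exp_ofReal_mul_I_re] at h
  exact (pos_iff_pos_of_mul_pos h).1 (lt_of_le_of_ne (by positivity) fun e => by simp [← e] at h)

theorem ph_rot {u v : ℂ} {t : ℝ} (hv : v ≠ 0) (h : u = Complex.exp (2 * π * Complex.I * t) * v) :
    ∃ n : ℤ, ph u - ph v - t = n := by
  have hn : ‖u‖ = ‖v‖ := by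
    rw [h, norm_mul, show 2 * π * Complex.I * t = ((2 * π * t : ℝ) : ℂ) * Complex.I by
      push_cast; ring, Complex.norm_exp_ofReal_mul_I, one_mul]
  have h0 : ((‖v‖ : ℝ) : ℂ) ≠ 0 := by simpa using hv
  have e : Complex.exp (2 * π * Complex.I * (ph u : ℝ)) =
      Complex.exp (2 * π * Complex.I * t + 2 * π * Complex.I * (ph v : ℝ)) := by
    apply mul_left_cancel₀ h0
    rw [Complex.exp_add, mul_left_comm, ← ph_spec v, ← h, ← hn, ← ph_spec u]
  obtain ⟨n, hn⟩ := Complex.exp_eq_exp_iff_exists_int.1 e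
  refine ⟨n, ?_⟩
  have hp : (2 * π * Complex.I : ℂ) ≠ 0 := Complex.two_pi_I_ne_zero
  have : ((ph u - ph v - t : ℝ) : ℂ) = ((n : ℝ) : ℂ) := by
    apply mul_left_cancel₀ hp
    push_cast; linear_combination hn
  exact_mod_cast this

theorem exists_inv {p J a : ℕ} (hp : p.Prime) (hJ : (p : Λ) ^ J = 0) {w : ℤ}
    (hw : ¬ (p : ℤ) ^ (a + 1) ∣ w) : ∃ lam : Λ, lam * w = (p : Λ) ^ a := by
  have hw0 : w ≠ 0 := by rintro rfl; exact hw (dvd_zero _)
  have hpi : Prime (p : ℤ) := Nat.prime_iff_prime_int.1 hp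
  obtain ⟨n, u, hu, rfl⟩ := WfDvdMonoid.max_power_factor hw0 hpi.irreducible
  have hn : n ≤ a := by
    by_contra hc
    exact hw (Dvd.dvd.mul_right (pow_dvd_pow _ (by omega)) _)
  obtain ⟨s, t, hst⟩ : IsCoprime ((p : ℤ) ^ J) u :=
    ((hpi.irreducible.coprime_iff_not_dvd).2 hu).pow_left
  have e : (t : Λ) * u = 1 := by
    have := congrArg (Int.cast : ℤ → Λ) hst
    push_cast at this
    rw [hJ, mul_zero, zero_add] at this; exact this
  refine ⟨(p : Λ) ^ (a - n) * t, ?_⟩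
  push_cast
  calc (p : Λ) ^ (a - n) * t * ((p : Λ) ^ n * u) = (p : Λ) ^ (a - n) * p ^ n * (t * u) := by ring
    _ = _ := by rw [e, mul_one, ← pow_add, Nat.sub_add_cancel hn]

/-- The relation of having the same weight and close values. -/
def Cl (w : P → ℤ) (F : P → ℂ) (u v : P) : Prop :=
  w u = w v ∧ 0 < (F u * (starRingEnd ℂ) (F v)).re

theorem exists_cut {T : P → P} {N p J a : ℕ} (hN : 0 < N) (hT : T^[N] = id) (hp : p.Prime)
    (hJ : (p : Λ) ^ J = 0) {w : P → ℤ} {F : P → ℂ} (hw : ∀ v, w (T v) = w v)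
    (hF : ∀ v, F (T v) = Complex.exp (2 * π * Complex.I * ((w v : ℝ) / N : ℝ)) * F v)
    (ha : ∀ v, ¬ (p : ℤ) ^ (a + 1) ∣ w v) :
    ∃ (al : P → P → Λ) (be : P → Λ), Cut T N (Cl w F) ((p : Λ) ^ a) al be := by
  have hl : ∀ z : ℤ, ∃ lam : Λ, (¬ (p : ℤ) ^ (a + 1) ∣ z) → lam * z = (p : Λ) ^ a := fun z => by
    by_cases h : (p : ℤ) ^ (a + 1) ∣ z
    · exact ⟨0, fun h' => absurd h h'⟩
    · obtain ⟨l, hl⟩ := exists_inv hp hJ h
      exact ⟨l, fun _ => hl⟩
  choose lam hlam using hl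
  have nz1 : ∀ {u v}, Cl w F u v → F u ≠ 0 := fun h e => by simpa [e] using h.2
  have nz2 : ∀ {u v}, Cl w F u v → F v ≠ 0 := fun h e => by simpa [e] using h.2
  have inv : ∀ u v, Cl w F u v → Cl w F (T u) (T v) := fun u v h => by
    refine ⟨by rw [hw, hw, h.1], ?_⟩
    rw [hF, hF, h.1, map_mul, mul_mul_mul_comm, Complex.mul_conj, Complex.normSq_eq_norm_sq,
      show 2 * π * Complex.I * ((w v : ℝ) / N : ℝ) =
        ((2 * π * ((w v : ℝ) / N) : ℝ) : ℂ) * Complex.I by push_cast; ring,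
      Complex.norm_exp_ofReal_mul_I]
    simpa using h.2
  set b0 : P → ℤ := fun v => round (ph (F (T v)) - ph (F v) - (w v : ℝ) / N) with hb0
  have hb : ∀ v, F v ≠ 0 → ph (F (T v)) = ph (F v) + (w v : ℝ) / N + b0 v := fun v hv => by
    obtain ⟨n, hn⟩ := ph_rot hv (hF v)
    simp only [hb0, hn, round_intCast]; linarith
  refine ⟨fun u v => lam (w u) * (round (ph (F u) - ph (F v)) : ℤ),
    fun v => lam (w v) * (- b0 v : ℤ), inv, ?_, ?_, ?_⟩
  · intro u v z h1 h2 h3
    have e1 := abs_lt.1 (near_of_re h1.2)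
    have e2 := abs_lt.1 (near_of_re h2.2)
    have e3 := abs_lt.1 (near_of_re h3.2)
    have : round (ph (F u) - ph (F z)) =
        round (ph (F u) - ph (F v)) + round (ph (F v) - ph (F z)) := by
      have l1 : ((round (ph (F u) - ph (F z)) : ℤ) : ℝ) <
          ((round (ph (F u) - ph (F v)) + round (ph (F v) - ph (F z)) + 1 : ℤ) : ℝ) := by
        push_cast; linarith
      have l2 : ((round (ph (F u) - ph (F v)) + round (ph (F v) - ph (F z)) : ℤ) : ℝ) <
          ((round (ph (F u) - ph (F z)) + 1 : ℤ) : ℝ) := by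
        push_cast; linarith
      have := Int.cast_lt.1 l1
      have := Int.cast_lt.1 l2
      omega
    simp only [this, ← h1.1]; push_cast; ring
  · intro u v h
    have : ph (F (T u)) - ph (F (T v)) = ph (F u) - ph (F v) + ((b0 u - b0 v : ℤ) : ℝ) := by
      rw [hb u (nz1 h), hb v (nz2 h), h.1]; push_cast; ring
    simp only [this, round_add_intCast, hw, ← h.1]; push_cast; ring
  · intro v h
    have it : ∀ n, Cl w F (T^[n] v) (T^[n] v) ∧ w (T^[n] v) = w v := fun n => by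
      induction n with
      | zero => exact ⟨h, rfl⟩
      | succ n ih => rw [Function.iterate_succ']; exact ⟨inv _ _ ih.1, (hw _).trans ih.2⟩
    have tel : ∀ n : ℕ, ph (F (T^[n] v)) =
        ph (F v) + n * ((w v : ℝ) / N) + ((∑ s ∈ Finset.range n, b0 (T^[s] v) : ℤ) : ℝ) := by
      intro n
      induction n with
      | zero => simp
      | succ n ih =>
        rw [Function.iterate_succ', Function.comp_apply, hb _ (nz1 (it n).1), ih, (it n).2,
          Finset.sum_range_succ]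
        push_cast; ring
    have e := tel N
    have hN' : (N : ℝ) ≠ 0 := by exact_mod_cast hN.ne'
    rw [hT, id, mul_div_cancel₀ _ hN'] at e
    have e' : ((∑ s ∈ Finset.range N, b0 (T^[s] v) : ℤ) : ℝ) = ((- w v : ℤ) : ℝ) := by
      rw [Int.cast_neg]; linarith
    have e2 := Int.cast_injective e'
    rw [← hlam (w v) (ha v)]
    simp only [ps, (it _).2, ← Finset.mul_sum]
    congr 1
    rw [← Int.cast_sum, Finset.sum_neg_distrib, e2, neg_neg]

/-- The cut lemma for a homotopy fixed chain indexed by the natural numbers. -/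
theorem cut_nat {T : P → P} {N : ℕ} (hT : T^[N] = id) (hN : (N : Λ) = 0)
    (r : ℕ → P → P → Prop) (pi : ℕ → Λ) (al : ℕ → P → P → Λ) (be : ℕ → P → Λ) (k : ℕ)
    (hc : ∀ i < k, Cut T N (r i) (pi i) (al i) (be i)) (x : ℕ → Ch P Λ)
    (hD : ∀ j < 2 * k, bd (x (j + 1)) = ((-1 : Λ) ^ (j + 1)) • dd T N ((j + 1 : ℕ) : ℤ) (x j))
    (hs : ∀ j ≤ 2 * k, ∀ l ∈ (x j).support,
      l.length = j + 1 ∧ ∃ i < k, ∀ u ∈ l, ∀ v ∈ l, r i u v) :
    (∏ i ∈ Finset.range k, pi i) * eps (x 0) = 0 := by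
  have len : ∀ j ≤ 2 * k, x j ∈ supported Λ Λ {l | l.length = j + 1} :=
    fun j hj l hl => (hs j hj l hl).1
  have := cut hT hN r pi al be k hc (fun j => if 0 ≤ j then x j.toNat else 0) ?_ ?_
  · simpa using this
  · intro j hj
    rcases lt_trichotomy j 0 with h | rfl | h
    · simp [DD, not_le.2 h, show ¬ (1 ≤ j) by omega]
    · have : bd (x 0) = 0 := app_on (f := bd) (g := 0)
        (fun l hl => bd_short (le_of_eq hl) 1) (len 0 (by omega))
      simp [DD, this]
    · obtain ⟨n, rfl⟩ : ∃ n : ℕ, j = ((n + 1 : ℕ) : ℤ) := ⟨(j - 1).toNat, by omega⟩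
      have e1 : (((n + 1 : ℕ) : ℤ) - 1).toNat = n := by omega
      simp only [DD, if_pos h.le, if_pos (show (0 : ℤ) ≤ ((n + 1 : ℕ) : ℤ) - 1 by omega), e1,
        Int.toNat_natCast]
      rw [hD n (by omega), ← dd_sg, sg_of_length (len n (by omega)), map_smul, sub_self]
  · intro j hj
    split_ifs with h
    · intro l hl
      obtain ⟨h1, i, hi, h2⟩ := hs j.toNat (by omega) l hl
      exact ⟨i, hi, by rintro rfl; simp at h1, h2⟩
    · exact zero_mem _

/-- The cut lemma for circle valued functions. -/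
theorem cut_phase {T : P → P} {N p J : ℕ} (hN0 : 0 < N) (hT : T^[N] = id) (hN : (N : Λ) = 0)
    (hp : p.Prime) (hJ : (p : Λ) ^ J = 0) (k : ℕ) (w : ℕ → P → ℤ) (F : ℕ → P → ℂ) (a : ℕ → ℕ)
    (hw : ∀ i < k, ∀ v, w i (T v) = w i v)
    (hF : ∀ i < k, ∀ v,
      F i (T v) = Complex.exp (2 * π * Complex.I * ((w i v : ℝ) / N : ℝ)) * F i v)
    (ha : ∀ i < k, ∀ v, ¬ (p : ℤ) ^ (a i + 1) ∣ w i v) (x : ℕ → Ch P Λ)
    (hD : ∀ j < 2 * k, bd (x (j + 1)) = ((-1 : Λ) ^ (j + 1)) • dd T N ((j + 1 : ℕ) : ℤ) (x j))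
    (hs : ∀ j ≤ 2 * k, ∀ l ∈ (x j).support,
      l.length = j + 1 ∧ ∃ i < k, ∀ u ∈ l, ∀ v ∈ l, Cl (w i) (F i) u v) :
    (p : Λ) ^ (∑ i ∈ Finset.range k, a i) * eps (x 0) = 0 := by
  have h : ∀ i, ∃ (al : P → P → Λ) (be : P → Λ),
      i < k → Cut T N (Cl (w i) (F i)) ((p : Λ) ^ a i) al be := fun i => by
    by_cases hi : i < k
    · obtain ⟨al, be, h⟩ := exists_cut hN0 hT hp hJ (hw i hi) (hF i hi) (ha i hi)
      exact ⟨al, be, fun _ => h⟩
    · exact ⟨0, 0, fun h => absurd h hi⟩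
  choose al be h using h
  rw [← Finset.prod_pow_eq_pow_sum]
  exact cut_nat hT hN _ _ al be k h x hD hs

end Pool.Agent.Lib.MP_7903c7_al.LS.CutCore
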