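import Mathlib

/-!
The cut lemma: a Borsuk-Ulam type vanishing statement for homotopy fixed chains of a cyclic
group acting on the complex of lists.
-/

namespace Pool.Agent.Lib.MP_7903c7_al.LS.CutCore

open Finsupp

variable {P : Type*} {Λ : Type*} [CommRing Λ]

/-- Chains. -/
abbrev Ch (P Λ : Type*) [CommRing Λ] := List P →₀ Λ

/-- The linear map with given values on the basis. -/
noncomputable def op (f : List P → Ch P Λ) : Ch P Λ →ₗ[Λ] Ch P Λ := linearCombination Λ f

@[simp] theorem op_single (f : List P → Ch P Λ) (l : List P) (c : Λ) :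
    op f (single l c) = c • f l := linearCombination_single _ _ _

theorem ext1 {M : Type*} [AddCommGroup M] [Module Λ M] {f g : Ch P Λ →ₗ[Λ] M}
    (h : ∀ l, f (single l 1) = g (single l 1)) : f = g :=
  Finsupp.lhom_ext' fun l => LinearMap.ext_ring (h l)

/-- Put a point in front. -/
noncomputable def cons (a : P) : Ch P Λ →ₗ[Λ] Ch P Λ := op fun l => single (a :: l) 1

/-- Augmented boundary of a list. -/
noncomputable def bdA : List P → Ch P Λ
  | [] => 0
  | a :: l => single l 1 - cons a (bdA l)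

/-- Kill the empty list. -/
noncomputable def kil : Ch P Λ →ₗ[Λ] Ch P Λ := op fun l =>
  match l with
  | [] => 0
  | a :: l => single (a :: l) 1

/-- The boundary. -/
noncomputable def bd : Ch P Λ →ₗ[Λ] Ch P Λ := kil ∘ₗ op bdA

/-- The sign. -/
noncomputable def sg : Ch P Λ →ₗ[Λ] Ch P Λ := op fun l => single l ((-1) ^ l.length)

/-- Action of a self map. -/
noncomputable def tr (T : P → P) : Ch P Λ →ₗ[Λ] Ch P Λ := op fun l => single (l.map T) 1

/-- Cap product with a one-cochain. -/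
noncomputable def io (al : P → P → Λ) : Ch P Λ →ₗ[Λ] Ch P Λ := op fun l =>
  match l with
  | a :: b :: l => single (b :: l) (al a b)
  | _ => 0

/-- Cap product with a zero-cochain. -/
noncomputable def mu (be : P → Λ) : Ch P Λ →ₗ[Λ] Ch P Λ := op fun l =>
  match l with
  | a :: l => single (a :: l) (be a)
  | [] => 0

/-- Sum of the coefficients of the lists of length one. -/
noncomputable def eps : Ch P Λ →ₗ[Λ] Λ := linearCombination Λ fun l =>
  match l with
  | [_] => 1
  | _ => 0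

@[simp] theorem cons_single (a : P) (l : List P) (c : Λ) :
    cons a (single l c) = single (a :: l) c := by simp [cons]

@[simp] theorem tr_single (T : P → P) (l : List P) (c : Λ) :
    tr T (single l c) = single (l.map T) c := by simp [tr]

@[simp] theorem sg_single (l : List P) (c : Λ) :
    sg (single l c) = single l ((-1) ^ l.length * c) := by simp [sg, mul_comm]

@[simp] theorem kil_nil (c : Λ) : kil (single ([] : List P) c) = 0 := by simp [kil]
@[simp] theorem kil_cons (a : P) (l : List P) (c : Λ) :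
    kil (single (a :: l) c) = single (a :: l) c := by simp [kil]
@[simp] theorem mu_nil (be : P → Λ) (c : Λ) : mu be (single [] c) = 0 := by simp [mu]
@[simp] theorem mu_cons (be : P → Λ) (a : P) (l : List P) (c : Λ) :
    mu be (single (a :: l) c) = single (a :: l) (be a * c) := by simp [mu, mul_comm]
@[simp] theorem io_nil (al : P → P → Λ) (c : Λ) : io al (single [] c) = 0 := by simp [io]
@[simp] theorem io_one (al : P → P → Λ) (a : P) (c : Λ) : io al (single [a] c) = 0 := by simp [io]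
@[simp] theorem io_two (al : P → P → Λ) (a b : P) (l : List P) (c : Λ) :
    io al (single (a :: b :: l) c) = single (b :: l) (al a b * c) := by simp [io, mul_comm]
@[simp] theorem eps_nil (c : Λ) : eps (single ([] : List P) c) = 0 := by simp [eps]
@[simp] theorem eps_one (a : P) (c : Λ) : eps (single [a] c) = c := by simp [eps]
@[simp] theorem eps_two (a b : P) (l : List P) (c : Λ) : eps (single (a :: b :: l) c) = 0 := by
  simp [eps]

theorem app {M : Type*} [AddCommGroup M] [Module Λ M] {f g : Ch P Λ →ₗ[Λ] M} (h : f = g) (x) :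
    f x = g x := by rw [h]

theorem kil_c (a : P) (x : Ch P Λ) : kil (cons a x) = cons a x :=
  app (f := kil ∘ₗ cons a) (ext1 fun l => by simp) x

theorem mu_c (be : P → Λ) (a : P) (x : Ch P Λ) : mu be (cons a x) = be a • cons a x :=
  app (f := mu be ∘ₗ cons a) (g := be a • cons a) (ext1 fun l => by simp) x

theorem io_cc (al : P → P → Λ) (a b : P) (x : Ch P Λ) :
    io al (cons a (cons b x)) = al a b • cons b x :=
  app (f := io al ∘ₗ cons a ∘ₗ cons b) (g := al a b • cons b) (ext1 fun l => by simp) x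

theorem eps_cc (a b : P) (x : Ch P Λ) : eps (cons a (cons b x)) = 0 :=
  app (f := eps ∘ₗ cons a ∘ₗ cons b) (g := 0) (ext1 fun l => by simp) x

theorem sg_c (a : P) (x : Ch P Λ) : sg (cons a x) = - cons a (sg x) :=
  app (f := sg ∘ₗ cons a) (g := - (cons a ∘ₗ sg : Ch P Λ →ₗ[Λ] Ch P Λ))
    (ext1 fun l => by simp [pow_succ]) x

theorem tr_c (T : P → P) (a : P) (x : Ch P Λ) : tr T (cons a x) = cons (T a) (tr T x) :=
  app (f := tr T ∘ₗ cons a) (g := cons (T a) ∘ₗ tr T) (ext1 fun l => by simp) x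

theorem bdA_c (a : P) (x : Ch P Λ) : op bdA (cons a x) = x - cons a (op bdA x) :=
  app (f := op bdA ∘ₗ cons a) (g := LinearMap.id - cons a ∘ₗ op bdA)
    (ext1 fun l => by simp [bdA]) x

theorem bdA_bdA (l : List P) : op bdA (bdA l : Ch P Λ) = 0 := by
  induction l with
  | nil => simp [bdA]
  | cons a l ih => simp [bdA, bdA_c, ih]

theorem bdA_kil (x : Ch P Λ) : op bdA (kil x) = op bdA x :=
  app (f := op bdA ∘ₗ kil) (ext1 fun l => by cases l <;> simp [bdA]) x

theorem bd_bd (x : Ch P Λ) : bd (bd x) = 0 :=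
  app (f := bd ∘ₗ bd) (g := 0) (ext1 fun l => by simp [bd, bdA_kil, bdA_bdA]) x

@[simp] theorem bd_nil (c : Λ) : bd (single ([] : List P) c) = 0 := by simp [bd, bdA]
@[simp] theorem bd_one (a : P) (c : Λ) : bd (single [a] c) = 0 := by simp [bd, bdA]
theorem bd_two (a b : P) (l : List P) (c : Λ) :
    bd (single (a :: b :: l) c) = c • (single (b :: l) 1 - cons a (bdA (b :: l))) := by
  simp only [bd, LinearMap.comp_apply, op_single, map_smul]
  rw [bdA, map_sub, kil_cons, kil_c]

theorem sg_bdA (l : List P) : sg (bdA l : Ch P Λ) = (-(-1) ^ l.length : Λ) • bdA l := by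
  induction l with
  | nil => simp [bdA]
  | cons a l ih => simp [bdA, sg_c, ih, pow_succ, smul_sub]

theorem bd_sg (x : Ch P Λ) : bd (sg x) = - sg (bd x) :=
  app (f := bd ∘ₗ sg) (g := - (sg ∘ₗ bd : Ch P Λ →ₗ[Λ] Ch P Λ)) (ext1 fun l => by
    rcases l with _ | ⟨a, _ | ⟨b, l⟩⟩
    · simp
    · simp
    · simp [bd_two, sg_c, sg_bdA, pow_succ, smul_sub]
      abel) x

theorem io_sg (al : P → P → Λ) (x : Ch P Λ) : io al (sg x) = - sg (io al x) :=
  app (f := io al ∘ₗ sg) (g := - sg ∘ₗ io al) (ext1 fun l => by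
    rcases l with _ | ⟨a, _ | ⟨b, l⟩⟩ <;> simp [pow_succ, mul_comm]) x

theorem mu_sg (be : P → Λ) (x : Ch P Λ) : mu be (sg x) = sg (mu be x) :=
  app (f := mu be ∘ₗ sg) (g := sg ∘ₗ mu be) (ext1 fun l => by
    cases l <;> simp [mul_comm]) x

theorem tr_sg (T : P → P) (x : Ch P Λ) : tr T (sg x) = sg (tr T x) :=
  app (f := tr T ∘ₗ sg) (g := sg ∘ₗ tr T) (ext1 fun l => by simp) x

theorem sg_sg (x : Ch P Λ) : sg (sg x) = x :=
  app (f := sg ∘ₗ sg) (g := LinearMap.id) (ext1 fun l => by simp [← mul_pow]) x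

theorem eps_sg (x : Ch P Λ) : eps (sg x) = - eps x :=
  app (f := eps ∘ₗ sg) (g := - eps) (ext1 fun l => by
    rcases l with _ | ⟨a, _ | ⟨b, l⟩⟩ <;> simp) x

theorem tr_bdA (T : P → P) (l : List P) : tr T (bdA l : Ch P Λ) = bdA (l.map T) := by
  induction l with
  | nil => simp [bdA]
  | cons a l ih => simp [bdA, tr_c, ih]

theorem bd_tr (T : P → P) (x : Ch P Λ) : bd (tr T x) = tr T (bd x) :=
  app (f := bd ∘ₗ tr T) (g := tr T ∘ₗ bd) (ext1 fun l => by
    rcases l with _ | ⟨a, _ | ⟨b, l⟩⟩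
    · simp
    · simp
    · simp [bd_two, tr_c, tr_bdA]) x

theorem eps_tr (T : P → P) (x : Ch P Λ) : eps (tr T x) = eps x :=
  app (f := eps ∘ₗ tr T) (g := eps) (ext1 fun l => by
    rcases l with _ | ⟨a, _ | ⟨b, l⟩⟩ <;> simp) x

theorem eps_bd (x : Ch P Λ) : eps (bd x) = 0 :=
  app (f := eps ∘ₗ bd) (g := 0) (ext1 fun l => by
    rcases l with _ | ⟨a, _ | ⟨b, _ | ⟨c, l⟩⟩⟩
    · simp
    · simp
    · simp [bd_two, bdA]
    · simp [bd_two, bdA, eps_cc]) x

theorem tr_tr (T U : P → P) (x : Ch P Λ) : tr T (tr U x) = tr (T ∘ U) x :=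
  app (f := tr T ∘ₗ tr U) (ext1 fun l => by simp) x

theorem tr_id (x : Ch P Λ) : tr id x = x :=
  app (f := tr id) (g := LinearMap.id) (ext1 fun l => by simp) x

theorem bd_mu (be : P → Λ) (x : Ch P Λ) :
    bd (mu be x) = mu be (bd x) - io (fun a b => be b - be a) x :=
  app (f := bd ∘ₗ mu be) (g := mu be ∘ₗ bd - io (fun a b => be b - be a)) (ext1 fun l => by
    rcases l with _ | ⟨a, _ | ⟨b, l⟩⟩
    · simp
    · simp
    · simp [bd_two, mu_c, smul_sub]) x

theorem mu_tr (be : P → Λ) (T : P → P) (x : Ch P Λ) : mu be (tr T x) = tr T (mu (be ∘ T) x) :=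
  app (f := mu be ∘ₗ tr T) (g := tr T ∘ₗ mu (be ∘ T)) (ext1 fun l => by cases l <;> simp) x

theorem mu_add (be ga : P → Λ) (x : Ch P Λ) : mu (be + ga) x = mu be x + mu ga x :=
  app (f := mu (be + ga)) (g := mu be + mu ga) (ext1 fun l => by cases l <;> simp) x

theorem mu_zero (x : Ch P Λ) : mu (0 : P → Λ) x = 0 :=
  app (f := mu 0) (g := 0) (ext1 fun l => by cases l <;> simp) x

/-! The operators of the periodic resolution. -/

/-- `T - 1` at odd places and the norm at even places. -/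
noncomputable def dd (T : P → P) (N : ℕ) (i : ℤ) : Ch P Λ →ₗ[Λ] Ch P Λ :=
  if Even i then ∑ r ∈ Finset.range N, tr T^[r] else tr T - LinearMap.id

/-- Partial sums along an orbit. -/
def ps (T : P → P) (be : P → Λ) (r : ℕ) (a : P) : Λ := ∑ s ∈ Finset.range r, be (T^[s] a)

noncomputable def nu (T : P → P) (N : ℕ) (be : P → Λ) (i : ℤ) : Ch P Λ →ₗ[Λ] Ch P Λ :=
  if Even i then ∑ r ∈ Finset.range N, tr T^[r] ∘ₗ mu (ps T be r) else tr T ∘ₗ mu be

/-- The total differential. -/
noncomputable def DD (T : P → P) (N : ℕ) (x : ℤ → Ch P Λ) (i : ℤ) : Ch P Λ :=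
  bd (x i) - sg (dd T N i (x (i - 1)))

/-- The homotopy. -/
noncomputable def hh (T : P → P) (N : ℕ) (al : P → P → Λ) (be : P → Λ) (x : ℤ → Ch P Λ)
    (i : ℤ) : Ch P Λ :=
  io al (x i) - sg (nu T N be i (x (i - 1)))

variable {T : P → P} {N : ℕ}

theorem dd_sg (i : ℤ) (x : Ch P Λ) : dd T N i (sg x) = sg (dd T N i x) := by
  unfold dd; split_ifs <;> simp [tr_sg]

theorem nu_sg (be : P → Λ) (i : ℤ) (x : Ch P Λ) : nu T N be i (sg x) = sg (nu T N be i x) := by
  unfold nu; split_ifs <;> simp [tr_sg, mu_sg]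

theorem bd_dd (i : ℤ) (x : Ch P Λ) : bd (dd T N i x) = dd T N i (bd x) := by
  unfold dd; split_ifs <;> simp [bd_tr]

theorem even_pred (i : ℤ) : Even (i - 1) ↔ ¬ Even i := by
  simp

theorem tele (f : ℕ → Ch P Λ) :
    ∑ r ∈ Finset.range N, f (r + 1) - ∑ r ∈ Finset.range N, f r = f N - f 0 := by
  rw [← Finset.sum_sub_distrib, Finset.sum_range_sub]

theorem dd_dd (hT : T^[N] = id) (i : ℤ) (x : Ch P Λ) : dd T N i (dd T N (i - 1) x) = 0 := by
  have h := tele (N := N) fun r => tr T^[r] x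
  rw [hT, Function.iterate_zero, sub_self] at h
  unfold dd
  by_cases hi : Even i
  · rw [if_pos hi, if_neg (by rw [even_pred]; exact not_not.2 hi)]
    simp only [LinearMap.sum_apply, LinearMap.sub_apply, LinearMap.id_apply, map_sub, tr_tr]
    simpa only [Function.iterate_succ, Finset.sum_sub_distrib] using h
  · rw [if_neg hi, if_pos (even_pred i |>.2 hi)]
    simp only [LinearMap.sum_apply, LinearMap.sub_apply, LinearMap.id_apply, map_sum, tr_tr]
    simpa only [Function.iterate_succ', Finset.sum_sub_distrib] using h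

theorem DD_DD (hT : T^[N] = id) (x : ℤ → Ch P Λ) (i : ℤ) : DD T N (DD T N x) i = 0 := by
  simp only [DD, map_sub, bd_bd, bd_sg, bd_dd, dd_sg, dd_dd hT, map_zero]
  abel

theorem eps_DD (hN : (N : Λ) = 0) (x : ℤ → Ch P Λ) {i : ℤ} (hi : Even i) :
    eps (DD T N x i) = 0 := by
  simp [DD, eps_bd, eps_sg, dd, if_pos hi, eps_tr, hN]

/-! Good lists. -/

/-- Nonempty lists of pairwise related points. -/
def Gl (r : P → P → Prop) : Set (List P) := {l | l ≠ [] ∧ ∀ a ∈ l, ∀ b ∈ l, r a b}

/-- The data of a cut. -/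
structure Cut (T : P → P) (N : ℕ) (r : P → P → Prop) (pi : Λ) (al : P → P → Λ) (be : P → Λ) :
    Prop where
  inv : ∀ a b, r a b → r (T a) (T b)
  coc : ∀ a b c, r a b → r b c → r a c → al a c = al a b + al b c
  mov : ∀ a b, r a b → al (T a) (T b) = al a b + be b - be a
  tot : ∀ a, r a a → ps T be N a = pi

theorem app_on {M : Type*} [AddCommGroup M] [Module Λ M] {f g : Ch P Λ →ₗ[Λ] M}
    {S : Set (List P)} (h : ∀ l ∈ S, f (single l 1) = g (single l 1)) {x}
    (hx : x ∈ supported Λ Λ S) : f x = g x := by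
  rw [supported_eq_span_single] at hx
  refine LinearMap.eqOn_span ?_ hx
  rintro _ ⟨l, hl, rfl⟩
  exact h l hl

variable {r : P → P → Prop} {pi : Λ} {al : P → P → Λ} {be : P → Λ}

theorem ps_succ (n : ℕ) : ps T be (n + 1) = ps T be n + be ∘ T^[n] := by
  funext a; simp [ps, Finset.sum_range_succ]

theorem ps_succ' (n : ℕ) : ps T be (n + 1) = ps T be n ∘ T + be := by
  funext a; simp [ps, Finset.sum_range_succ']

theorem ps_zero : ps T be 0 = 0 := by funext a; simp [ps]

theorem Cut.inv_it (h : Cut T N r pi al be) {a b} (hab : r a b) (n : ℕ) :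
    r (T^[n] a) (T^[n] b) := by
  induction n with
  | zero => exact hab
  | succ n ih => rw [Function.iterate_succ']; exact h.inv _ _ ih

theorem Cut.mov_it (h : Cut T N r pi al be) {a b} (hab : r a b) (n : ℕ) :
    al (T^[n] a) (T^[n] b) = al a b + (ps T be n b - ps T be n a) := by
  induction n with
  | zero => simp [ps]
  | succ n ih =>
    rw [Function.iterate_succ', Function.comp_apply, Function.comp_apply,
      h.mov _ _ (h.inv_it hab n), ih, ps_succ]
    simp only [Pi.add_apply, Function.comp_apply]; ring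

theorem Cut.r1 (h : Cut T N r pi al be) {x : Ch P Λ} (hx : x ∈ supported Λ Λ (Gl r)) :
    bd (io al x) = - io al (bd x) :=
  app_on (f := bd ∘ₗ io al) (g := - io al ∘ₗ bd) (fun l hl => by
    rcases l with _ | ⟨a, _ | ⟨b, _ | ⟨c, l⟩⟩⟩
    · simp
    · simp
    · simp [bd_two, bdA]
    · have e := h.coc a b c (hl.2 a (by simp) b (by simp)) (hl.2 b (by simp) c (by simp))
        (hl.2 a (by simp) c (by simp))
      simp only [LinearMap.comp_apply, LinearMap.neg_apply, io_two, bd_two, one_smul, mul_one]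
      rw [show (bdA (b :: c :: l) : Ch P Λ) = single (c :: l) 1 - cons b (bdA (c :: l)) from rfl]
      simp only [map_sub, cons_single, io_two, io_cc, e, mul_one, smul_sub, smul_single,
        smul_eq_mul, single_add]
      abel) hx

theorem Cut.io_it (h : Cut T N r pi al be) {x : Ch P Λ} (hx : x ∈ supported Λ Λ (Gl r)) (n : ℕ) :
    io al (tr T^[n] x) = tr T^[n] (io al x) +
      tr T^[n] (io (fun a b => ps T be n b - ps T be n a) x) :=
  app_on (f := io al ∘ₗ tr T^[n])
    (g := tr T^[n] ∘ₗ io al + tr T^[n] ∘ₗ io (fun a b => ps T be n b - ps T be n a))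
    (fun l hl => by
      rcases l with _ | ⟨a, _ | ⟨b, l⟩⟩
      · simp
      · simp
      · simp [h.mov_it (hl.2 a (by simp) b (by simp)) n]) hx

theorem Cut.r2 (h : Cut T N r pi al be) {x : Ch P Λ} (hx : x ∈ supported Λ Λ (Gl r)) (i : ℤ) :
    bd (nu T N be i x) =
      nu T N be i (bd x) + dd T N i (io al x) - io al (dd T N i x) := by
  unfold nu dd
  split_ifs
  · simp only [LinearMap.sum_apply, LinearMap.comp_apply, map_sum, bd_tr, bd_mu, map_sub,
      h.io_it hx, Finset.sum_add_distrib, Finset.sum_sub_distrib]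
    abel
  · have e := h.io_it hx 1
    have e1 : ps T be 1 = be := by funext a; simp [ps]
    rw [Function.iterate_one, e1] at e
    simp only [LinearMap.comp_apply, LinearMap.sub_apply, LinearMap.id_apply, bd_tr, bd_mu,
      map_sub, e]
    abel

theorem Cut.mu_tot (h : Cut T N r pi al be) {x : Ch P Λ} (hx : x ∈ supported Λ Λ (Gl r)) :
    mu (ps T be N) x = pi • x :=
  app_on (f := mu (ps T be N)) (g := pi • LinearMap.id) (fun l hl => by
    rcases l with _ | ⟨a, l⟩
    · exact absurd rfl hl.1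
    · simp [h.tot a (hl.2 a (by simp) a (by simp))]) hx

theorem Cut.r3 (hT : T^[N] = id) (h : Cut T N r pi al be) {x : Ch P Λ}
    (hx : x ∈ supported Λ Λ (Gl r)) (i : ℤ) :
    dd T N i (nu T N be (i - 1) x) + nu T N be i (dd T N (i - 1) x) = pi • x := by
  have e := tele (N := N) fun n => tr T^[n] (mu (ps T be n) x)
  rw [hT, tr_id, h.mu_tot hx, ps_zero, mu_zero, map_zero, sub_zero] at e
  rw [← e]
  unfold nu dd
  by_cases hi : Even i
  · have hi' : ¬ Even (i - 1) := by rw [even_pred]; exact not_not.2 hi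
    simp only [if_pos hi, if_neg hi', LinearMap.sum_apply, LinearMap.comp_apply,
      LinearMap.sub_apply, LinearMap.id_apply, map_sub, mu_tr, tr_tr, ps_succ', mu_add, map_add,
      Function.iterate_succ, Finset.sum_add_distrib]
    abel
  · have hi' : Even (i - 1) := (even_pred i).2 hi
    simp only [if_neg hi, if_pos hi', LinearMap.sum_apply, LinearMap.comp_apply,
      LinearMap.sub_apply, LinearMap.id_apply, map_sum, mu_tr, tr_tr, ps_succ, mu_add, map_add,
      Function.iterate_succ', Finset.sum_add_distrib, Finset.sum_sub_distrib]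
    abel

theorem Cut.homot (hT : T^[N] = id) (h : Cut T N r pi al be) {x : ℤ → Ch P Λ} {i : ℤ}
    (h0 : x i ∈ supported Λ Λ (Gl r)) (h1 : x (i - 1) ∈ supported Λ Λ (Gl r))
    (h2 : x (i - 1 - 1) ∈ supported Λ Λ (Gl r)) :
    DD T N (hh T N al be x) i + hh T N al be (DD T N x) i = pi • x (i - 1 - 1) := by
  rw [← h.r3 hT h2 i]
  simp only [DD, hh, map_sub, bd_sg, io_sg, dd_sg, nu_sg, sg_sg, h.r1 h0, h.r2 h1, map_add]
  abel

/-! Supports. -/

/-- Sets of lists that are closed under the action and under nonempty sublists. -/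
structure Clo (T : P → P) (S : Set (List P)) : Prop where
  map : ∀ l ∈ S, l.map T ∈ S
  sub : ∀ l ∈ S, ∀ l', l' ≠ [] → l'.Sublist l → l' ∈ S

theorem map_on {f : Ch P Λ →ₗ[Λ] Ch P Λ} {S S' : Set (List P)}
    (h : ∀ l ∈ S, f (single l 1) ∈ supported Λ Λ S') {x} (hx : x ∈ supported Λ Λ S) :
    f x ∈ supported Λ Λ S' := by
  rw [supported_eq_span_single] at hx
  have : Submodule.span Λ ((fun i => single i (1 : Λ)) '' S) ≤ (supported Λ Λ S').comap f := by
    rw [Submodule.span_le]
    rintro _ ⟨l, hl, rfl⟩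
    exact h l hl
  exact this hx

theorem cons_on (a : P) {S S' : Set (List P)} (h : ∀ l ∈ S, a :: l ∈ S') {x : Ch P Λ}
    (hx : x ∈ supported Λ Λ S) : cons a x ∈ supported Λ Λ S' :=
  map_on (fun l hl => by rw [cons_single]; exact single_mem_supported _ _ (h l hl)) hx

theorem bdA_on (l : List P) : (bdA l : Ch P Λ) ∈ supported Λ Λ {l' | l'.Sublist l} := by
  induction l with
  | nil => simp [bdA]
  | cons a l ih =>
    exact sub_mem (single_mem_supported _ _ (List.sublist_cons_self a l))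
      (cons_on a (S' := {l' | l'.Sublist (a :: l)})
        (fun l' hl' => List.Sublist.cons_cons a hl') ih)

variable {S : Set (List P)} {x : Ch P Λ}

theorem Clo.bd (h : Clo T S) (hx : x ∈ supported Λ Λ S) : bd x ∈ supported Λ Λ S :=
  map_on (fun l hl => by
    rcases l with _ | ⟨a, _ | ⟨b, l⟩⟩
    · simp
    · simp
    · rw [bd_two, one_smul]
      exact sub_mem (single_mem_supported _ _ (h.sub _ hl _ (by simp) (List.sublist_cons_self a _)))
        (cons_on a (fun l' hl' => h.sub _ hl _ (by simp) (List.Sublist.cons_cons a hl'))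
          (bdA_on _))) hx

theorem sg_on (hx : x ∈ supported Λ Λ S) : sg x ∈ supported Λ Λ S :=
  map_on (fun l hl => by rw [sg_single]; exact single_mem_supported _ _ hl) hx

theorem mu_on (be : P → Λ) (hx : x ∈ supported Λ Λ S) : mu be x ∈ supported Λ Λ S :=
  map_on (fun l hl => by
    cases l with
    | nil => simp
    | cons a l => rw [mu_cons]; exact single_mem_supported _ _ hl) hx

theorem Clo.io (h : Clo T S) (al : P → P → Λ) (hx : x ∈ supported Λ Λ S) :
    io al x ∈ supported Λ Λ S :=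
  map_on (fun l hl => by
    rcases l with _ | ⟨a, _ | ⟨b, l⟩⟩
    · simp
    · simp
    · rw [io_two]
      exact single_mem_supported _ _ (h.sub _ hl _ (by simp) (List.sublist_cons_self a _))) hx

theorem Clo.tr (h : Clo T S) (n : ℕ) (hx : x ∈ supported Λ Λ S) :
    tr T^[n] x ∈ supported Λ Λ S := by
  induction n with
  | zero => rw [Function.iterate_zero, tr_id]; exact hx
  | succ n ih =>
    rw [Function.iterate_succ', ← tr_tr]
    exact map_on (fun l hl => by rw [tr_single]; exact single_mem_supported _ _ (h.map l hl)) ih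

theorem Clo.dd (h : Clo T S) (i : ℤ) (hx : x ∈ supported Λ Λ S) :
    dd T N i x ∈ supported Λ Λ S := by
  unfold CutCore.dd; split_ifs
  · rw [LinearMap.sum_apply]; exact sum_mem fun n _ => h.tr n hx
  · exact sub_mem (h.tr 1 hx) hx

theorem Clo.nu (h : Clo T S) (be : P → Λ) (i : ℤ) (hx : x ∈ supported Λ Λ S) :
    nu T N be i x ∈ supported Λ Λ S := by
  unfold CutCore.nu; split_ifs
  · rw [LinearMap.sum_apply]; exact sum_mem fun n _ => h.tr n (mu_on _ hx)
  · exact h.tr 1 (mu_on _ hx)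

theorem Clo.DD (h : Clo T S) {x : ℤ → Ch P Λ} {i : ℤ} (h0 : x i ∈ supported Λ Λ S)
    (h1 : x (i - 1) ∈ supported Λ Λ S) : DD T N x i ∈ supported Λ Λ S :=
  sub_mem (h.bd h0) (sg_on (h.dd i h1))

theorem Clo.hh (h : Clo T S) {x : ℤ → Ch P Λ} {i : ℤ} (h0 : x i ∈ supported Λ Λ S)
    (h1 : x (i - 1) ∈ supported Λ Λ S) : hh T N al be x i ∈ supported Λ Λ S :=
  sub_mem (h.io al h0) (sg_on (h.nu be i h1))

theorem clo_Gl (h : ∀ a b, r a b → r (T a) (T b)) : Clo T (Gl r) where
  map l hl := ⟨by simpa using hl.1, by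
    simp only [List.mem_map]
    rintro _ ⟨a, ha, rfl⟩ _ ⟨b, hb, rfl⟩
    exact h a b (hl.2 a ha b hb)⟩
  sub l hl l' h0 hs := ⟨h0, fun a ha b hb => hl.2 a (hs.subset ha) b (hs.subset hb)⟩

theorem DD_shift (y : ℤ → Ch P Λ) (i : ℤ) : DD T N (fun j => y (j + 2)) i = DD T N y (i + 2) := by
  have e : dd (Λ := Λ) T N (i + 2) = dd T N i := by simp [dd]
  simp only [DD, e, show i - 1 + 2 = i + 2 - 1 by ring]

/-- The cut lemma. -/
theorem cut (hT : T^[N] = id) (hN : (N : Λ) = 0) (r : ℕ → P → P → Prop) (pi : ℕ → Λ)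
    (al : ℕ → P → P → Λ) (be : ℕ → P → Λ) (k : ℕ)
    (hc : ∀ i < k, Cut T N (r i) (pi i) (al i) (be i)) (x : ℤ → Ch P Λ)
    (hD : ∀ j ≤ 2 * (k : ℤ), DD T N x j = 0)
    (hs : ∀ j ≤ 2 * (k : ℤ), x j ∈ supported Λ Λ {l | ∃ i < k, l ∈ Gl (r i)}) :
    (∏ i ∈ Finset.range k, pi i) * eps (x 0) = 0 := by
  classical
  induction k generalizing x with
  | zero =>
    have := hs 0 (by simp)
    simp only [Nat.not_lt_zero, false_and, exists_false, Set.ofPred_false, supported_empty,
      Submodule.mem_bot] at this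
    simp [this]
  | succ k ih =>
    have hk := hc k (Nat.lt_succ_self k)
    have c1 : Clo T (Gl (r k)) := clo_Gl hk.inv
    have c2 : Clo T {l | ∃ i < k, l ∈ Gl (r i)} :=
      ⟨fun l ⟨i, hi, hl⟩ => ⟨i, hi, (clo_Gl (hc i (by omega)).inv).map l hl⟩,
        fun l ⟨i, hi, hl⟩ l' h0 h1 => ⟨i, hi, (clo_Gl (hc i (by omega)).inv).sub l hl l' h0 h1⟩⟩
    set x1 : ℤ → Ch P Λ := fun j => (x j).filter (· ∈ Gl (r k)) with hx1
    set x2 : ℤ → Ch P Λ := fun j => (x j).filter (fun l => ¬ l ∈ Gl (r k)) with hx2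
    have sx : ∀ j, x1 j + x2 j = x j := fun j => filter_add_filter_not _ _
    have s1 : ∀ j, x1 j ∈ supported Λ Λ (Gl (r k)) := fun j l hl => by
      simp only [hx1, support_filter, Finset.coe_filter] at hl; exact hl.2
    have s2 : ∀ j ≤ 2 * ((k + 1 : ℕ) : ℤ), x2 j ∈ supported Λ Λ {l | ∃ i < k, l ∈ Gl (r i)} :=
      fun j hj l hl => by
        simp only [hx2, support_filter, Finset.coe_filter] at hl
        obtain ⟨i, hi, h⟩ := hs j hj hl.1
        refine ⟨i, lt_of_le_of_ne (by omega) ?_, h⟩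
        rintro rfl; exact hl.2 h
    set z := DD T N x2 with hz
    have zz : ∀ j ≤ 2 * ((k + 1 : ℕ) : ℤ), z j = - DD T N x1 j := fun j hj => by
      have := hD j hj
      simp only [DD, ← sx, map_add] at this
      simp only [hz, DD]
      rw [eq_neg_iff_add_eq_zero, ← this]; abel
    have z1 : ∀ j ≤ 2 * ((k + 1 : ℕ) : ℤ), z j ∈ supported Λ Λ (Gl (r k)) := fun j hj => by
      rw [zz j hj]; exact neg_mem (c1.DD (s1 _) (s1 _))
    have z2 : ∀ j ≤ 2 * ((k + 1 : ℕ) : ℤ), z j ∈ supported Λ Λ {l | ∃ i < k, l ∈ Gl (r i)} :=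
      fun j hj => c2.DD (s2 _ hj) (s2 _ (by omega))
    set y : ℤ → Ch P Λ := fun j => pi k • x2 (j - 1 - 1) - hh T N (al k) (be k) z j with hy
    have Dy : ∀ j ≤ 2 * ((k + 1 : ℕ) : ℤ), DD T N y j = 0 := fun j hj => by
      have e := hk.homot hT (x := z) (i := j) (z1 _ hj) (z1 _ (by omega)) (z1 _ (by omega))
      have e2 : hh T N (al k) (be k) (DD T N z) j = 0 := by simp [hh, hz, DD_DD hT]
      have e3 : dd (Λ := Λ) T N (j - 1 - 1) = dd T N j := by simp [dd]
      rw [e2, add_zero] at e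
      have : DD T N y j = pi k • z (j - 1 - 1) - DD T N (hh T N (al k) (be k) z) j := by
        simp only [hy, hz, DD, map_sub, map_smul, e3, smul_sub]; abel
      rw [this, e, sub_self]
    have := ih (fun i hi => hc i (by omega)) (fun j => y (j + 2))
      (fun j hj => by rw [DD_shift]; exact Dy _ (by push_cast; omega))
      (fun j hj => sub_mem (Submodule.smul_mem _ _ (s2 _ (by push_cast; omega)))
        (c2.hh (z2 _ (by push_cast; omega)) (z2 _ (by push_cast; omega))))
    have e := hk.homot hT (x := x1) (i := 2) (s1 _) (s1 _) (s1 _)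
    have e4 : hh T N (al k) (be k) z 2 = - hh T N (al k) (be k) (DD T N x1) 2 := by
      simp only [hh, zz 2 (by push_cast; omega), zz (2 - 1) (by push_cast; omega), map_neg]; abel
    have e5 : y 2 = pi k • x 0 - DD T N (hh T N (al k) (be k) x1) 2 := by
      rw [show (2 : ℤ) - 1 - 1 = 0 by norm_num] at e
      simp only [hy, e4, show (2 : ℤ) - 1 - 1 = 0 by norm_num, ← sx 0, smul_add, ← e]; abel
    simp only [zero_add, e5, map_sub, eps_DD hN _ (show Even (2 : ℤ) by decide), map_smul,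
      smul_eq_mul, sub_zero] at this
    rw [Finset.prod_range_succ, mul_assoc, this]

end Pool.Agent.Lib.MP_7903c7_al.LS.CutCore
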